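import Pool.Agent.T2h19.AP.Fin

/-!
There are Fano manifolds of Picard number one which contain a linear subspace of dimension at least
two with trivial normal bundle.
-/

set_option autoImplicit false

open MvPolynomial Pool.Agent.T2h19.AP

namespace Pool.Agent.Results.MP_b7b3c1_ag.PlanesWithTrivialNormalBundle

/-- There are integers `k` and `n` with `2 < 2 k ≤ n`, a smooth projective variety `X` of dimension `n`
in a projective space, given by its homogeneous ideal `I`, whose canonical bundle is `O(-r)` for some
`r > 0`, so that `X` is a Fano manifold, such that every prime divisor of `X` is the set of zeros of a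
section of one of the line bundles `O(d)`, so that the Picard number of `X` is one, and a linear
subspace `ℙ(L)` of dimension `k` of the projective space which is contained in `X` and whose normal
bundle in `X` is trivial.

In the proof `k = 2`, `n = 6`, `r = 3`, and `X` is the variety of the abelian planes in the Lie algebra
`sl_3` (the closure of the set of the planes of traceless diagonal matrices in the bases of `ℂ ^ 3`,
in its Plücker embedding), the planes being the closures of the sets of the abelian planes which
stabilise a point of `ℙ ^ 2` and a line not through it. -/
theorem result :
    ∃ k n : ℕ, 2 < 2 * k ∧ 2 * k ≤ n ∧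
      ∃ (ι : Type) (_ : Fintype ι) (I : Ideal (MvPolynomial ι ℂ)),
        IsVariety I ∧ IsSmooth I n ∧ (∃ r : ℤ, 0 < r ∧ CanonicalIs I n r) ∧ PicardNumberOne I ∧
        ∃ L : Submodule ℂ (ι → ℂ), IsLinearWithTrivialNormalBundle I n k L :=
  fin

end Pool.Agent.Results.MP_b7b3c1_ag.PlanesWithTrivialNormalBundle
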